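import Mathlib

namespace Pool.Agent.Results.MP_00e3a8_gt.Neg

open Finset

variable {X : Type} [DecidableEq X]

/-- Diversities. -/
def IsDiversity (δ : Finset X → ℝ) : Prop :=
  (∀ A, 0 ≤ δ A) ∧ (∀ A, δ A = 0 ↔ A.card ≤ 1) ∧
    ∀ A B C, C.Nonempty → δ (A ∪ B) ≤ δ (A ∪ C) + δ (B ∪ C)

/-- The induced metric. -/
def induced (δ : Finset X → ℝ) : X → X → ℝ := fun x y => δ {x, y}

/-- The `ℓ₁` diversity of a finite set of points. -/
noncomputable def l1div {k : ℕ} (S : Set (Fin k → ℝ)) : ℝ :=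
  ∑ i, sSup {r | ∃ a ∈ S, ∃ b ∈ S, r = |a i - b i|}

/-- `φ` has distortion `c`. -/
def HasDistortion (δ : Finset X → ℝ) {k : ℕ} (φ : X → Fin k → ℝ) (c : ℝ) : Prop :=
  ∃ c₁ > 0, ∃ c₂ > 0, c = c₁ * c₂ ∧
    ∀ A : Finset X, 1 / c₁ * δ A ≤ l1div (φ '' A) ∧ l1div (φ '' A) ≤ c₂ * δ A

noncomputable def dv (Y A : Finset X) : ℝ := if A.card ≤ 1 then 0 else max 1 ((A ∩ Y).card / 2)

theorem dv_nonneg (Y A : Finset X) : 0 ≤ dv Y A := by
  unfold dv; split_ifs
  exacts [le_rfl, zero_le_one.trans (le_max_left _ _)]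

theorem dv_mono (Y : Finset X) {A B : Finset X} (h : A ⊆ B) : dv Y A ≤ dv Y B := by
  by_cases hA : A.card ≤ 1
  · rw [dv, if_pos hA]; exact dv_nonneg _ _
  · rw [dv, dv, if_neg hA, if_neg fun e => hA ((card_le_card h).trans e)]
    have : ((A ∩ Y).card : ℝ) ≤ (B ∩ Y).card := by
      exact_mod_cast card_le_card (inter_subset_inter_right h)
    exact max_le_max le_rfl (by linarith)

theorem dv_div (Y : Finset X) : IsDiversity (dv Y) := by
  refine ⟨dv_nonneg Y, fun A => ⟨fun h => by_contra fun e => ?_, fun h => if_pos h⟩,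
    fun A B C ⟨c, hc⟩ => ?_⟩
  · rw [dv, if_neg e] at h
    linarith [le_max_left (1 : ℝ) ((A ∩ Y).card / 2)]
  · by_cases h1 : (A ∪ C).card ≤ 1
    · refine (dv_mono Y (union_subset (fun a ha => ?_) subset_union_left)).trans
        (le_add_of_nonneg_left (dv_nonneg _ _))
      rw [card_le_one.1 h1 a (mem_union_left _ ha) c (mem_union_right _ hc)]
      exact mem_union_right _ hc
    by_cases h2 : (B ∪ C).card ≤ 1
    · refine (dv_mono Y (union_subset subset_union_left fun a ha => ?_)).trans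
        (le_add_of_nonneg_right (dv_nonneg _ _))
      rw [card_le_one.1 h2 a (mem_union_left _ ha) c (mem_union_right _ hc)]
      exact mem_union_right _ hc
    have h3 : (((A ∪ B) ∩ Y).card : ℝ) ≤ ((A ∪ C) ∩ Y).card + ((B ∪ C) ∩ Y).card := by
      exact_mod_cast (card_le_card (by intro x; simp only [mem_inter, mem_union]; tauto)).trans
        (card_union_le _ _)
    have a1 := le_max_left (1 : ℝ) (((A ∪ C) ∩ Y).card / 2)
    have a2 := le_max_right (1 : ℝ) (((A ∪ C) ∩ Y).card / 2)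
    have a3 := le_max_left (1 : ℝ) (((B ∪ C) ∩ Y).card / 2)
    have a4 := le_max_right (1 : ℝ) (((B ∪ C) ∩ Y).card / 2)
    rw [dv, dv, dv, if_neg h1, if_neg h2]
    split_ifs
    · linarith
    · exact max_le (by linarith) (by linarith)

theorem dv_ind (Y : Finset X) : induced (dv Y) = fun x y => if x = y then 0 else 1 := by
  funext x y
  by_cases e : x = y
  · simp [induced, dv, e]
  · have : ((({x, y} : Finset X) ∩ Y).card : ℝ) ≤ 2 := by
      exact_mod_cast (card_le_card inter_subset_left).trans card_le_two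
    rw [induced, dv, card_pair e, if_neg (by norm_num), if_neg e, max_eq_left (by linarith)]

theorem key {k : ℕ} (φ : X → Fin k → ℝ) {P Q : Finset X} (h : Disjoint P Q) (hP : 2 ≤ P.card)
    (hQ : 2 ≤ Q.card) (hl : l1div (φ '' Q) ≤ l1div (φ '' P)) {c : ℝ}
    (hc : HasDistortion (dv Q) φ c) : (Q.card : ℝ) / 2 ≤ c := by
  obtain ⟨c₁, h1, c₂, h2, rfl, h3⟩ := hc
  have a := (h3 P).2
  have b := (h3 Q).1
  rw [dv, if_neg (by omega), disjoint_iff_inter_eq_empty.1 h] at a
  rw [dv, if_neg (by omega), inter_self, one_div, inv_mul_le_iff₀ h1] at b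
  simp only [card_empty, Nat.cast_zero, zero_div, zero_le_one, sup_of_le_left, mul_one] at a
  exact (le_max_right _ _).trans (b.trans (mul_le_mul_of_nonneg_left (hl.trans a) h1.le))

theorem result (X : Type) [Fintype X] [DecidableEq X] (hX : 4 ≤ Fintype.card X)
    (k : (X → X → ℝ) → ℕ) (φ : ∀ d : X → X → ℝ, X → Fin (k d) → ℝ) :
    ∃ δ : Finset X → ℝ, IsDiversity δ ∧
      ∀ c, HasDistortion δ (φ (induced δ)) c → ((Fintype.card X : ℝ) - 1) / 4 ≤ c := by
  obtain ⟨P, -, hP⟩ := exists_subset_card_eq (s := (univ : Finset X)) (n := Fintype.card X / 2)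
    (by rw [card_univ]; omega)
  obtain ⟨Q, hQ', hQ⟩ := exists_subset_card_eq (s := Pᶜ) (n := Fintype.card X / 2)
    (by rw [card_compl, hP]; omega)
  have hd : Disjoint P Q := disjoint_compl_right.mono_right hQ'
  have hm : ((Fintype.card X : ℝ) - 1) / 4 ≤ ((Fintype.card X / 2 : ℕ) : ℝ) / 2 := by
    have : (Fintype.card X : ℝ) ≤ 2 * ((Fintype.card X / 2 : ℕ) : ℝ) + 1 := by
      exact_mod_cast (by omega : Fintype.card X ≤ 2 * (Fintype.card X / 2) + 1)
    linarith
  rcases le_total (l1div (φ (fun x y => if x = y then 0 else 1) '' Q))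
    (l1div (φ (fun x y => if x = y then 0 else 1) '' P)) with h | h
  · refine ⟨dv Q, dv_div Q, ?_⟩
    rw [dv_ind]
    exact fun c hc => hm.trans (hQ ▸ key _ hd (by omega) (by omega) h hc)
  · refine ⟨dv P, dv_div P, ?_⟩
    rw [dv_ind]
    exact fun c hc => hm.trans (hP ▸ key _ hd.symm (by omega) (by omega) h hc)

end Pool.Agent.Results.MP_00e3a8_gt.Neg
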